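import Mathlib
import Pool.Agent.V11109.CSD.Opp
import Pool.Agent.H715R2.LimitAlg
import Pool.Agent.H715R2.Periodic
import Pool.Agent.Y327.Unique

/-! # MP_77d073_nt: limits with an algebraic form

Let `n ≥ 3` and let `L 1, ..., L n` be independent forms whose product is bounded away from zero at
the nonzero integer points. There is an irreducible RS-matrix whose invariant planes are the
hyperplanes `L i = 0` if and only if some limit `L'` of systems `a i • (L i ∘ γ)` (`a` of product
`±1`, `γ` integral of determinant `±1`) contains a form `L' i` which up to scaling has coefficients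
in a real number field of degree at most `n`. So Oppenheim's conjecture in dimension `n` is
equivalent to: every system of `n` independent forms whose product is bounded away from zero has
such a limit. -/

set_option autoImplicit false

open Filter Topology

namespace Pool.Agent.Results.MP_77d073_nt.AlgebraicLimit

variable {n : ℕ}

/-- the product of the linear forms with the coefficients `L i`, at an integer point -/
noncomputable def F (L : Fin n → Fin n → ℝ) (p : Fin n → ℤ) : ℝ :=
  ∏ i : Fin n, ∑ j : Fin n, L i j * (p j : ℝ)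

/-- the product is bounded away from zero at the nonzero integer points -/
def BoundedAway (L : Fin n → Fin n → ℝ) : Prop :=
  ∃ ν : ℝ, 0 < ν ∧ ∀ p : Fin n → ℤ, p ≠ 0 → ν ≤ |F L p|

/-- Oppenheim's conclusion: there is an irreducible RS-matrix whose invariant planes are the
hyperplanes `L i = 0`. -/
def HasMatrix (L : Fin n → Fin n → ℝ) : Prop :=
  ∃ A : Matrix (Fin n) (Fin n) ℤ,
    A.det = 1 ∧
    Irreducible (A.charpoly.map (Int.castRingHom ℚ)) ∧
    (∀ z : ℂ, Polynomial.aeval z A.charpoly = 0 → z.im = 0) ∧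
    ∀ i : Fin n, ∀ x : Fin n → ℝ, ∑ j, L i j * x j = 0 →
      ∑ j, L i j * ((A.map (Int.cast : ℤ → ℝ)).mulVec x) j = 0

/-- Oppenheim's conjecture in dimension `n` -/
def Oppenheim (n : ℕ) : Prop :=
  ∀ L : Fin n → Fin n → ℝ, LinearIndependent ℝ L → BoundedAway L → HasMatrix L

/-- `L'` is a limit of systems `a i • (L i ∘ γ)`, the product of the `a i` and the determinant of
the integral matrix `γ` being `±1`. -/
def IsLimit (L L' : Fin n → Fin n → ℝ) : Prop :=
  ∃ (a : ℕ → Fin n → ℝ) (γ : ℕ → Matrix (Fin n) (Fin n) ℤ), (∀ m, |∏ i, a m i| = 1) ∧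
    (∀ m, |(γ m).det| = 1) ∧
    Tendsto (fun m i j => a m i * ∑ k, L i k * (γ m k j : ℝ)) atTop (𝓝 L')

/-- one of the forms has, up to scaling, coefficients in a real number field of degree at most
`n` -/
def HasAlgebraicForm (L : Fin n → Fin n → ℝ) : Prop :=
  ∃ (i : Fin n) (s : ℝ) (K : IntermediateField ℚ ℝ), s ≠ 0 ∧ FiniteDimensional ℚ K ∧
    Module.finrank ℚ K ≤ n ∧ ∀ j, s * L i j ∈ K

theorem result (n : ℕ) (hn : 3 ≤ n) :
    (∀ L : Fin n → Fin n → ℝ, LinearIndependent ℝ L → BoundedAway L →
      (HasMatrix L ↔ ∃ L' : Fin n → Fin n → ℝ, IsLimit L L' ∧ HasAlgebraicForm L')) ∧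
    (Oppenheim n ↔ ∀ L : Fin n → Fin n → ℝ, LinearIndependent ℝ L → BoundedAway L →
      ∃ L' : Fin n → Fin n → ℝ, IsLimit L L' ∧ HasAlgebraicForm L') := by
  have hn0 : 0 < n := by omega
  have key : ∀ L : Fin n → Fin n → ℝ, LinearIndependent ℝ L → BoundedAway L →
      (HasMatrix L ↔ ∃ L' : Fin n → Fin n → ℝ, IsLimit L L' ∧ HasAlgebraicForm L') := by
    intro L hL hb
    have hdet := Pool.Agent.H905R2.Opp.det_ne hL
    constructor
    · rintro ⟨A, -, hA1, -, hA2⟩
      obtain ⟨lam, hlam, hAg⟩ := Y327.eig_of_opp hdet hA1 hA2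
      obtain ⟨K, hfin, hrank, s, hs, hmem⟩ := H715R2.exists_alg_row hdet A lam hlam hAg ⟨0, hn0⟩
      refine ⟨L, ⟨fun _ _ => 1, fun _ => 1, fun _ => by simp, fun _ => by simp, ?_⟩,
        ⟨0, hn0⟩, s, K, hs, hfin, hrank, hmem⟩
      have h1 : (fun (_ : ℕ) (i j : Fin n) =>
          (1 : ℝ) * ∑ k, L i k * (((1 : Matrix (Fin n) (Fin n) ℤ) k j : ℤ) : ℝ)) = fun _ => L := by
        funext _ i j
        simp [Matrix.one_apply]
      rw [h1]
      exact tendsto_const_nhds
    · rintro ⟨L', ⟨a, γ, ha, hγ, hlim⟩, i, s, K, hs, hfin, hrank, hmem⟩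
      refine (Pool.Agent.V11109.CSD.matrix_iff_propInt hn hL hb).2 ?_
      have hlim' : Tendsto (fun m => Matrix.diagonal (a m) * Matrix.of L *
          (γ m).map (Int.cast : ℤ → ℝ)) atTop (𝓝 (Matrix.of L')) := by
        refine Tendsto.congr (fun m => ?_) hlim
        funext i j
        rw [Matrix.mul_assoc, Matrix.diagonal_mul, Matrix.mul_apply]
        rfl
      rcases H715R2.limit_alg' hn hdet a γ ha hγ hlim' i s hs K hrank hmem with h | h
      · exact h
      · exact absurd h.1 (Pool.Agent.H905R2.Opp.not_small hb)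
  refine ⟨key, fun hO L hL hb => (key L hL hb).1 (hO L hL hb), fun h L hL hb =>
    (key L hL hb).2 (h L hL hb)⟩

end Pool.Agent.Results.MP_77d073_nt.AlgebraicLimit
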