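import Mathlib
import Pool.Agent.V11109.CSD.Opp
import Pool.Agent.Results.MP_edeaa2_an.GenericForms

/-! # MP_77d073_nt: Oppenheim's conjecture and algebraically independent coefficients

Let `n ≥ 3`, let `p` be the smallest prime factor of `n`, and let `k` be a countable subfield of `ℝ`.

1. Let `L 1, ..., L n` be independent forms whose product is bounded away from zero at the nonzero
   integer points. There is an irreducible RS-matrix whose invariant planes are the hyperplanes
   `L i = 0` if and only if no limit `L'` of the systems `a i • (L i ∘ γ)` (`a` positive of product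
   one, `γ` integral of determinant `±1`) has `p` coefficients in each form `L' i` such that these
   `n p` coefficients, any one of them excepted, are algebraically independent over `k`.
2. Oppenheim's conjecture in dimension `n` is equivalent to: if in each of `n` independent forms
   there are `p` coefficients such that these `n p` coefficients are algebraically independent over
   `k` (for prime `n`: if all coefficients are algebraically independent over `k`), then the product
   of the forms is not bounded away from zero at the nonzero integer points. -/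

set_option autoImplicit false

open Filter Topology

namespace Pool.Agent.Results.MP_77d073_nt.GenericForms

variable {n : ℕ}

/-- the product of the linear forms with the coefficients `L i`, at an integer point -/
noncomputable def F (L : Fin n → Fin n → ℝ) (p : Fin n → ℤ) : ℝ :=
  ∏ i : Fin n, ∑ j : Fin n, L i j * (p j : ℝ)

/-- the product is bounded away from zero at the nonzero integer points -/
def BoundedAway (L : Fin n → Fin n → ℝ) : Prop :=
  ∃ ν : ℝ, 0 < ν ∧ ∀ p : Fin n → ℤ, p ≠ 0 → ν ≤ |F L p|

/-- Oppenheim's conclusion: there is an irreducible RS-matrix whose invariant planes are the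
hyperplanes `L i = 0`. -/
def HasMatrix (L : Fin n → Fin n → ℝ) : Prop :=
  ∃ A : Matrix (Fin n) (Fin n) ℤ,
    A.det = 1 ∧
    Irreducible (A.charpoly.map (Int.castRingHom ℚ)) ∧
    (∀ z : ℂ, Polynomial.aeval z A.charpoly = 0 → z.im = 0) ∧
    ∀ i : Fin n, ∀ x : Fin n → ℝ, ∑ j, L i j * x j = 0 →
      ∑ j, L i j * ((A.map (Int.cast : ℤ → ℝ)).mulVec x) j = 0

/-- Oppenheim's conjecture in dimension `n` -/
def Oppenheim (n : ℕ) : Prop :=
  ∀ L : Fin n → Fin n → ℝ, LinearIndependent ℝ L → BoundedAway L → HasMatrix L

/-- The limits of the systems `a i • (L i ∘ γ)`, `a` positive of product one, `γ` integral of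
determinant `±1`. -/
def Limits (L : Fin n → Fin n → ℝ) : Set (Fin n → Fin n → ℝ) :=
  closure {L' | ∃ (a : Fin n → ℝ) (γ : Matrix (Fin n) (Fin n) ℤ), (∀ i, 0 < a i) ∧
    ∏ i, a i = 1 ∧ |γ.det| = 1 ∧ ∀ i j, L' i j = a i * ∑ k, L i k * (γ k j : ℝ)}

/-- The coefficients `L i j` with `(i, j)` in the set `E` are algebraically independent over `k`. -/
def Indep (k : Subfield ℝ) (L : Fin n → Fin n → ℝ) (E : Set (Fin n × Fin n)) : Prop :=
  AlgebraicIndependent k (fun e : E => L e.1.1 e.1.2)

/-- the pairs `(i, j)` with `j` in `T i` -/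
def positions (T : Fin n → Finset (Fin n)) : Set (Fin n × Fin n) := {e | e.2 ∈ T e.1}

theorem result (n : ℕ) (hn : 3 ≤ n) (k : Subfield ℝ) (hk : Countable k) :
    -- 1. a criterion for a single system
    (∀ L : Fin n → Fin n → ℝ, LinearIndependent ℝ L → BoundedAway L →
      (HasMatrix L ↔ ∀ L' ∈ Limits L, ∀ T : Fin n → Finset (Fin n),
        (∀ i, (T i).card = n.minFac) → ¬ ∀ e ∈ positions T, Indep k L' (positions T \ {e}))) ∧
    -- 2. the conjecture in dimension `n`
    (Oppenheim n ↔ ∀ L : Fin n → Fin n → ℝ, LinearIndependent ℝ L →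
      ∀ T : Fin n → Finset (Fin n), (∀ i, (T i).card = n.minFac) →
        Indep k L (positions T) → ¬ BoundedAway L) := by
  obtain ⟨-, h2, h3⟩ := Pool.Agent.Results.MP_edeaa2_an.GenericForms.result n hn k hk
  refine ⟨fun L hL hb => ?_, ?_⟩
  · have hdet := Pool.Agent.H905R2.Opp.det_ne hL
    refine (Pool.Agent.V11109.CSD.matrix_iff_propInt hn hL hb).trans ((h2 (Matrix.of L) hdet hb).trans
      ⟨fun h L' hL' => ?_, fun h h' hh' => ?_⟩)
    · refine h (Matrix.of L') ?_
      rw [Pool.Agent.Results.MP_edeaa2_an.GenericForms.closure_eq]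
      exact (Pool.Agent.V11109.CSD.limits_iff L L').1 hL'
    · rw [Pool.Agent.Results.MP_edeaa2_an.GenericForms.closure_eq] at hh'
      exact h (Matrix.of.symm h') ((Pool.Agent.V11109.CSD.limits_iff L _).2 hh')
  · constructor
    · intro hO L hL T hT hI hb
      have hdet := Pool.Agent.H905R2.Opp.det_ne hL
      refine h3.1 (fun g hg hbg => ?_) (Matrix.of L) hdet T hT hI hb
      exact (Pool.Agent.V11109.CSD.matrix_iff_propInt hn
        (Pool.Agent.V11109.CSD.indep_of_det (L := Matrix.of.symm g) hg) hbg).1
        (hO (Matrix.of.symm g) (Pool.Agent.V11109.CSD.indep_of_det (L := Matrix.of.symm g) hg) hbg)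
    · intro hgen L hL hb
      have hdet := Pool.Agent.H905R2.Opp.det_ne hL
      refine (Pool.Agent.V11109.CSD.matrix_iff_propInt hn hL hb).2
        (h3.2 (fun g hg T hT hI hbg => ?_) (Matrix.of L) hdet hb)
      exact hgen (Matrix.of.symm g)
        (Pool.Agent.V11109.CSD.indep_of_det (L := Matrix.of.symm g) hg) T hT hI hbg

end Pool.Agent.Results.MP_77d073_nt.GenericForms
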