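import Mathlib
import Pool.Agent.V11109.CSD.Opp
import Pool.Agent.Results.MP_edeaa2_an.SeparatedValues

/-! # MP_77d073_nt: separated values of a counterexample to Oppenheim's conjecture

Let `n ≥ 3`, let `L 1, ..., L n` be independent forms whose product `F L` is bounded away from zero
at the nonzero integer points, and let `T > (n! / n ^ n) |det L|`, or more generally let `T` be such
that every product of `n` forms with the same absolute determinant takes a value of absolute value
`< T` at a nonzero integer point. Then one of the following holds.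

* There is an irreducible RS-matrix whose invariant planes are the hyperplanes `L i = 0`
  (Oppenheim's conclusion).
* There is `c > 0` such that for all small `ε > 0` at least `c log (1 / ε)` values of `F L` in
  `(-T, T)` at nonzero integer points have pairwise distances at least `ε`. -/

set_option autoImplicit false

open Filter Topology

namespace Pool.Agent.Results.MP_77d073_nt.SeparatedValues

variable {n : ℕ}

/-- the product of the linear forms with the coefficients `L i`, at an integer point -/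
noncomputable def F (L : Fin n → Fin n → ℝ) (p : Fin n → ℤ) : ℝ :=
  ∏ i : Fin n, ∑ j : Fin n, L i j * (p j : ℝ)

/-- the product is bounded away from zero at the nonzero integer points -/
def BoundedAway (L : Fin n → Fin n → ℝ) : Prop :=
  ∃ ν : ℝ, 0 < ν ∧ ∀ p : Fin n → ℤ, p ≠ 0 → ν ≤ |F L p|

/-- Oppenheim's conclusion: there is an irreducible RS-matrix whose invariant planes are the
hyperplanes `L i = 0`. -/
def HasMatrix (L : Fin n → Fin n → ℝ) : Prop :=
  ∃ A : Matrix (Fin n) (Fin n) ℤ,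
    A.det = 1 ∧
    Irreducible (A.charpoly.map (Int.castRingHom ℚ)) ∧
    (∀ z : ℂ, Polynomial.aeval z A.charpoly = 0 → z.im = 0) ∧
    ∀ i : Fin n, ∀ x : Fin n → ℝ, ∑ j, L i j * x j = 0 →
      ∑ j, L i j * ((A.map (Int.cast : ℤ → ℝ)).mulVec x) j = 0

/-- `P` consists of values of `F L` in `(-T, T)` at nonzero integer points, with pairwise distances
at least `ε`. -/
def Separated (L : Fin n → Fin n → ℝ) (T ε : ℝ) (P : Finset ℝ) : Prop :=
  (∀ t ∈ P, |t| < T ∧ ∃ p : Fin n → ℤ, p ≠ 0 ∧ F L p = t) ∧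
    ∀ s ∈ P, ∀ t ∈ P, s ≠ t → ε ≤ |s - t|

theorem result (n : ℕ) (hn : 3 ≤ n) (L : Fin n → Fin n → ℝ) (hL : LinearIndependent ℝ L)
    (hb : BoundedAway L) (hM : ¬ HasMatrix L) (T : ℝ)
    (hT : (n.factorial : ℝ) * |(Matrix.of L).det| < (n : ℝ) ^ n * T ∨
      ∀ h : Fin n → Fin n → ℝ, |(Matrix.of h).det| = |(Matrix.of L).det| →
        ∃ x : Fin n → ℤ, x ≠ 0 ∧ |F h x| < T) :
    ∃ c : ℝ, 0 < c ∧ ∃ ε₁ : ℝ, 0 < ε₁ ∧ ∀ ε : ℝ, 0 < ε → ε < ε₁ → ∃ P : Finset ℝ,
      Separated L T ε P ∧ c * Real.log (1 / ε) ≤ P.card := by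
  have hdet := Pool.Agent.H905R2.Opp.det_ne hL
  obtain ⟨ν, hν, hF⟩ := hb
  have hint : ¬ H715R2.PropInt (Matrix.of L) := fun hP =>
    hM ((Pool.Agent.V11109.CSD.matrix_iff_propInt hn hL ⟨ν, hν, hF⟩).2 hP)
  by_contra hcon
  push Not at hcon
  refine hint ((Pool.Agent.Results.MP_edeaa2_an.SeparatedValues.result n hn (Matrix.of L) hdet ν hν
    hF).2 T hT fun c hc ε₁ hε₁ => ?_)
  obtain ⟨ε, hε, hε', hP⟩ := hcon c hc ε₁ hε₁
  refine ⟨ε, hε, hε', fun P hPs => hP P ⟨fun t ht => ?_, hPs.2⟩⟩
  obtain ⟨h1, h2⟩ := hPs.1 t ht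
  exact ⟨abs_lt.2 h1, h2⟩

end Pool.Agent.Results.MP_77d073_nt.SeparatedValues
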