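import Mathlib
import Pool.Agent.V11109.CSD.Opp
import Pool.Agent.Results.MP_edeaa2_an.WallRecurrence

/-! # MP_77d073_nt: Oppenheim's conjecture as a recurrence property

Let `n ≥ 3` and let `L 1, ..., L n` be independent forms whose product is bounded away from zero at
the nonzero integer points. A limit of `L` is a limit of systems `a i • (L i ∘ γ)`, `a` positive of
product one, `γ` integral of determinant `±1`; an `(i, j)`-limit is a limit of such systems with
`a i = a j`. Call `L` recurrent off the wall of `i, j` if for some `a` with `a i ≠ a j` the system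
of the `a i • L i` is an `(i, j)`-limit of `L`.

1. If there is an irreducible RS-matrix whose invariant planes are the hyperplanes `L i = 0`, then
   for all limits `L'` of `L`, all `i ≠ j` and all positive `a` of product one the system of the
   `a i • L' i` is an `(i, j)`-limit of `L'`.
2. Let `i` be an index and `J` a set of more than `n - p` indices `j ≠ i`, `p` the smallest prime
   factor of `n` (if `n` is prime, then `J` may be any single index). There is an irreducible
   RS-matrix whose invariant planes are the hyperplanes `L i = 0` if and only if all limits of `L`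
   are recurrent off the walls of `i, j` for all `j` in `J`.
3. So, for each fixed pair `i ≠ j`, Oppenheim's conjecture in dimension `n` is equivalent to: all
   systems of `n` independent forms whose product is bounded away from zero are recurrent off the
   wall of `i, j`. -/

set_option autoImplicit false

open Filter Topology

namespace Pool.Agent.Results.MP_77d073_nt.WallRecurrence

variable {n : ℕ}

/-- the product of the linear forms with the coefficients `L i`, at an integer point -/
noncomputable def F (L : Fin n → Fin n → ℝ) (p : Fin n → ℤ) : ℝ :=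
  ∏ i : Fin n, ∑ j : Fin n, L i j * (p j : ℝ)

/-- the product is bounded away from zero at the nonzero integer points -/
def BoundedAway (L : Fin n → Fin n → ℝ) : Prop :=
  ∃ ν : ℝ, 0 < ν ∧ ∀ p : Fin n → ℤ, p ≠ 0 → ν ≤ |F L p|

/-- Oppenheim's conclusion: there is an irreducible RS-matrix whose invariant planes are the
hyperplanes `L i = 0`. -/
def HasMatrix (L : Fin n → Fin n → ℝ) : Prop :=
  ∃ A : Matrix (Fin n) (Fin n) ℤ,
    A.det = 1 ∧
    Irreducible (A.charpoly.map (Int.castRingHom ℚ)) ∧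
    (∀ z : ℂ, Polynomial.aeval z A.charpoly = 0 → z.im = 0) ∧
    ∀ i : Fin n, ∀ x : Fin n → ℝ, ∑ j, L i j * x j = 0 →
      ∑ j, L i j * ((A.map (Int.cast : ℤ → ℝ)).mulVec x) j = 0

/-- Oppenheim's conjecture in dimension `n` -/
def Oppenheim (n : ℕ) : Prop :=
  ∀ L : Fin n → Fin n → ℝ, LinearIndependent ℝ L → BoundedAway L → HasMatrix L

/-- The limits of the systems `a i • (L i ∘ γ)`, `a` positive of product one, `γ` integral of
determinant `±1`. -/
def Limits (L : Fin n → Fin n → ℝ) : Set (Fin n → Fin n → ℝ) :=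
  closure {L' | ∃ (a : Fin n → ℝ) (γ : Matrix (Fin n) (Fin n) ℤ), (∀ i, 0 < a i) ∧
    ∏ i, a i = 1 ∧ |γ.det| = 1 ∧ ∀ i j, L' i j = a i * ∑ k, L i k * (γ k j : ℝ)}

/-- The limits of the systems `a i • (L i ∘ γ)`, `a` positive of product one, `a i = a j`, `γ`
integral of determinant `±1`. -/
def WallLimits (i j : Fin n) (L : Fin n → Fin n → ℝ) : Set (Fin n → Fin n → ℝ) :=
  closure {L' | ∃ (a : Fin n → ℝ) (γ : Matrix (Fin n) (Fin n) ℤ), (∀ k, 0 < a k) ∧
    ∏ k, a k = 1 ∧ a i = a j ∧ |γ.det| = 1 ∧ ∀ k l, L' k l = a k * ∑ m, L k m * (γ m l : ℝ)}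

/-- some system of multiples `a k • L k` with `a i ≠ a j` is an `(i, j)`-limit of `L` -/
def RecurrentOff (i j : Fin n) (L : Fin n → Fin n → ℝ) : Prop :=
  ∃ a : Fin n → ℝ, (∀ k, 0 < a k) ∧ ∏ k, a k = 1 ∧ a i ≠ a j ∧
    (fun k l => a k * L k l) ∈ WallLimits i j L

lemma wallLimits_iff (i j : Fin n) (L L' : Fin n → Fin n → ℝ) :
    L' ∈ WallLimits i j L ↔
      Matrix.of L' ∈ Pool.Agent.Results.MP_edeaa2_an.WallRecurrence.WallClosure i j (Matrix.of L) := by
  have h1 : {L' : Fin n → Fin n → ℝ | ∃ (a : Fin n → ℝ) (γ : Matrix (Fin n) (Fin n) ℤ),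
      (∀ k, 0 < a k) ∧ ∏ k, a k = 1 ∧ a i = a j ∧ |γ.det| = 1 ∧
      ∀ k l, L' k l = a k * ∑ m, L k m * (γ m l : ℝ)} =
      ({h | ∃ (a : Fin n → ℝ) (γ : Matrix (Fin n) (Fin n) ℤ), (∀ k, 0 < a k) ∧ ∏ k, a k = 1 ∧
        a i = a j ∧ |γ.det| = 1 ∧
        h = Matrix.diagonal a * Matrix.of L * γ.map (Int.cast : ℤ → ℝ)} :
          Set (Fin n → Fin n → ℝ)) := by
    ext h
    constructor
    · rintro ⟨a, γ, ha0, ha1, haij, hγ, hh⟩
      refine ⟨a, γ, ha0, ha1, haij, hγ, ?_⟩
      funext k l
      rw [hh, Matrix.mul_assoc, Matrix.diagonal_mul, Matrix.mul_apply]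
      rfl
    · rintro ⟨a, γ, ha0, ha1, haij, hγ, hh⟩
      refine ⟨a, γ, ha0, ha1, haij, hγ, fun k l => ?_⟩
      rw [hh, Matrix.mul_assoc, Matrix.diagonal_mul, Matrix.mul_apply]
      rfl
  unfold WallLimits Pool.Agent.Results.MP_edeaa2_an.WallRecurrence.WallClosure
  rw [h1]
  rfl

lemma diag_eq (a : Fin n → ℝ) (L : Fin n → Fin n → ℝ) :
    Matrix.of (fun k l => a k * L k l) = Matrix.diagonal a * Matrix.of L := by
  ext k l
  rw [Matrix.diagonal_mul]
  rfl

lemma recurrentOff_iff (i j : Fin n) (L : Fin n → Fin n → ℝ) :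
    RecurrentOff i j L ↔
      Pool.Agent.Results.MP_edeaa2_an.WallRecurrence.RecurrentOff i j (Matrix.of L) := by
  unfold RecurrentOff Pool.Agent.Results.MP_edeaa2_an.WallRecurrence.RecurrentOff
  simp only [wallLimits_iff, diag_eq]

lemma limits_iff' (L L' : Fin n → Fin n → ℝ) : L' ∈ Limits L ↔
    Matrix.of L' ∈ Pool.Agent.Results.MP_edeaa2_an.WallRecurrence.OrbitClosure (Matrix.of L) := by
  rw [Pool.Agent.Results.MP_edeaa2_an.WallRecurrence.closure_eq]
  exact Pool.Agent.V11109.CSD.limits_iff L L'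

theorem result (n : ℕ) (hn : 3 ≤ n) :
    -- 1. recurrence
    (∀ L : Fin n → Fin n → ℝ, LinearIndependent ℝ L → BoundedAway L → HasMatrix L →
      ∀ L' ∈ Limits L, ∀ i j : Fin n, i ≠ j → ∀ a : Fin n → ℝ, (∀ k, 0 < a k) → ∏ k, a k = 1 →
        (fun k l => a k * L' k l) ∈ WallLimits i j L') ∧
    -- 2. a criterion for a single system
    (∀ L : Fin n → Fin n → ℝ, LinearIndependent ℝ L → BoundedAway L →
      ∀ (i : Fin n) (J : Finset (Fin n)), i ∉ J → n < J.card + n.minFac →
        (HasMatrix L ↔ ∀ L' ∈ Limits L, ∀ j ∈ J, RecurrentOff i j L')) ∧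
    -- 3. the conjecture in dimension `n`
    (∀ i j : Fin n, i ≠ j →
      (Oppenheim n ↔ ∀ L : Fin n → Fin n → ℝ, LinearIndependent ℝ L → BoundedAway L →
        RecurrentOff i j L)) := by
  obtain ⟨h1, -, h3, h4⟩ := Pool.Agent.Results.MP_edeaa2_an.WallRecurrence.result n hn
  refine ⟨fun L hL hb hM L' hL' i j hij a ha0 ha1 => ?_, fun L hL hb i J hiJ hJ => ?_,
    fun i j hij => ?_⟩
  · rw [wallLimits_iff, diag_eq]
    exact h1 (Matrix.of L) (Pool.Agent.H905R2.Opp.det_ne hL) hb
      ((Pool.Agent.V11109.CSD.matrix_iff_propInt hn hL hb).1 hM) (Matrix.of L')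
      ((limits_iff' L L').1 hL') i j hij a ha0 ha1
  · refine (Pool.Agent.V11109.CSD.matrix_iff_propInt hn hL hb).trans
      ((h3 (Matrix.of L) (Pool.Agent.H905R2.Opp.det_ne hL) hb i J hiJ hJ).trans
        ⟨fun h L' hL' j hj => ?_, fun h h' hh' j hj => ?_⟩)
    · exact (recurrentOff_iff i j L').2 (h _ ((limits_iff' L L').1 hL') j hj)
    · exact (recurrentOff_iff i j (Matrix.of.symm h')).1
        (h (Matrix.of.symm h') ((limits_iff' L _).2 hh') j hj)
  · constructor
    · intro hO L hL hb
      refine (recurrentOff_iff i j L).2 ((h4 i j hij).1 (fun g hg hint ε hε => ?_) (Matrix.of L)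
        (Pool.Agent.H905R2.Opp.det_ne hL) hb)
      by_contra hcon
      push Not at hcon
      have hbg : BoundedAway (Matrix.of.symm g) := ⟨ε, hε, hcon⟩
      exact hint ((Pool.Agent.V11109.CSD.matrix_iff_propInt hn
        (Pool.Agent.V11109.CSD.indep_of_det (L := Matrix.of.symm g) hg) hbg).1
        (hO (Matrix.of.symm g) (Pool.Agent.V11109.CSD.indep_of_det (L := Matrix.of.symm g) hg) hbg))
    · intro hrec L hL hb
      refine (Pool.Agent.V11109.CSD.matrix_iff_propInt hn hL hb).2 ?_
      by_contra hint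
      obtain ⟨ν, hν, hF⟩ := hb
      obtain ⟨x, hx, hx1⟩ := (h4 i j hij).2 (fun g hg hbg =>
        (recurrentOff_iff i j (Matrix.of.symm g)).1 (hrec (Matrix.of.symm g)
          (Pool.Agent.V11109.CSD.indep_of_det (L := Matrix.of.symm g) hg) hbg)) (Matrix.of L)
        (Pool.Agent.H905R2.Opp.det_ne hL) hint ν hν
      exact absurd (hF x hx) (not_le.2 hx1)

end Pool.Agent.Results.MP_77d073_nt.WallRecurrence
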